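import Pool.Agent.H34.GU.Targets1

/-!
Row ENU of the board gu: the energy on the part of the domain where all gaps are bounded.
-/

set_option autoImplicit false

namespace Pool.Agent.H49.GU

open MeasureTheory Pool.Agent.H34.GM Pool.Agent.H34.GZ Pool.Agent.H34.GU

/-- the kernel vanishes when the vector is not primitive -/
private lemma enu_P0 (hU : T_ALU) (m N : ℕ) [NeZero N] (h1 : 1 ≤ m) (h2 : 2 ≤ N) (y : ℝ)
    (g h : Mat m) (x w : VN m N) (hx : ¬ Pr x) : Pu y g x h w = 0 := by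
  obtain ⟨_, _, _, hu, _, _⟩ := hU m N h1 h2
  unfold Pu
  rw [ENNReal.tsum_eq_zero]
  intro α
  rw [if_neg]
  rintro ⟨ha, hb, _⟩
  rw [← ha] at hb
  exact hx (hu _ _ hb)

private lemma enu_PP0 (hU : T_ALU) (m N : ℕ) [NeZero N] (h1 : 1 ≤ m) (h2 : 2 ≤ N) (D : Set (V m))
    (y : ℝ) (g k : Mat m) (x z : VN m N) (hx : ¬ Pr x) : PPu D y g x k z = 0 := by
  unfold PPu
  have h3 : ∀ h : V m, ∑ w : VN m N, Pu y g x (mt h) w * Pu y (mt h) w k z = 0 := fun h =>
    Finset.sum_eq_zero fun w _ => by rw [enu_P0 hU m N h1 h2 y g (mt h) x w hx, zero_mul]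
  simp only [h3, lintegral_zero]

private lemma enu_det (m : ℕ) (h1 : 1 ≤ m) (z : Mat m) (h : 1 ≤ aN z) : z.det ≠ 0 := by
  intro h0
  unfold aN at h
  have hm : (1 / (m : ℝ)) ≠ 0 := by
    have : (0 : ℝ) < m := by exact_mod_cast h1
    positivity
  rw [h0, abs_zero, Real.zero_rpow hm] at h
  linarith

private lemma enu_skw {m : ℕ} (a : Fin m → ℝ) (ha : ∀ i, 0 < a i) : 0 < skw a := by
  unfold skw
  refine Finset.prod_pos fun i _ => Finset.prod_pos fun j _ => ?_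
  split_ifs
  · exact div_pos (ha j) (ha i)
  · exact one_pos

open Classical in
/-- the fibres of the kernel lattice have at most `N` elements -/
private lemma enu_fib (hKLI : T_KLI) (m N : ℕ) [NeZero N] (h1 : 1 ≤ m) (h2 : 2 ≤ N)
    (G : AddSubgroup (Fin m → ℤ) → ENNReal) :
    ∑ x : VN m N, (if Pr x then G (kl x) else 0) ≤
      (N : ENNReal) * ∑' M : AddSubgroup (Fin m → ℤ), (if M.index = N then G M else 0) := by
  obtain ⟨hidx, hfib⟩ := hKLI m N h1 h2
  have e1 : ∀ x : VN m N, (if Pr x then G (kl x) else 0) =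
      ∑' M : AddSubgroup (Fin m → ℤ), (if Pr x ∧ kl x = M then G M else 0) := by
    intro x
    by_cases hx : Pr x
    · rw [if_pos hx, tsum_eq_single (kl x)]
      · rw [if_pos ⟨hx, rfl⟩]
      · intro M hM
        rw [if_neg]
        rintro ⟨_, h⟩
        exact hM h.symm
    · rw [if_neg hx, eq_comm, ENNReal.tsum_eq_zero]
      intro M
      rw [if_neg]
      rintro ⟨h, _⟩
      exact hx h
  calc ∑ x : VN m N, (if Pr x then G (kl x) else 0)
      = ∑' x : VN m N, ∑' M : AddSubgroup (Fin m → ℤ),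
          (if Pr x ∧ kl x = M then G M else 0) := by
        rw [tsum_fintype]
        exact Finset.sum_congr rfl fun x _ => e1 x
    _ = ∑' M : AddSubgroup (Fin m → ℤ), ∑' x : VN m N,
          (if Pr x ∧ kl x = M then G M else 0) := ENNReal.tsum_comm
    _ ≤ ∑' M : AddSubgroup (Fin m → ℤ), (N : ENNReal) * (if M.index = N then G M else 0) := by
        refine ENNReal.tsum_le_tsum fun M => ?_
        rw [tsum_fintype, ← Finset.sum_filter, Finset.sum_const, nsmul_eq_mul]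
        have hc : (Finset.univ.filter fun x : VN m N => Pr x ∧ kl x = M).card ≤ N := by
          have h3 := hfib M
          rw [← Set.ncard_coe_finset]
          refine le_trans (le_of_eq ?_) h3
          congr 1
          ext x
          simp
        by_cases hM : M.index = N
        · rw [if_pos hM]
          exact mul_le_mul' (by exact_mod_cast hc) le_rfl
        · have h0 : (Finset.univ.filter fun x : VN m N => Pr x ∧ kl x = M) = ∅ := by
            refine Finset.filter_eq_empty_iff.2 ?_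
            rintro x _ ⟨hx, he⟩
            exact hM (by rw [← he]; exact hidx x hx)
          rw [h0]
          simp
    _ = (N : ENNReal) * ∑' M : AddSubgroup (Fin m → ℤ), (if M.index = N then G M else 0) :=
        ENNReal.tsum_mul_left

open Classical in
/-- the bound at one point, with one system of Siegel data -/
private lemma enu_pt (hA : T_ALZ) (hU : T_ALU) (hEIE : T_EIE) (hKLI : T_KLI) (hSEX : T_SEX)
    (m : ℕ) (h1 : 1 ≤ m)
    (C1 C2 C0 C3 ε : ℝ) (K3 : ℕ) (hC1 : 0 < C1) (hC2 : 0 < C2) (hC3 : 0 < C3)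
    (N : ℕ) [NeZero N] (D : Set (V m)) (h2 : 2 ≤ N) (hD : DomZ m D)
    (H1 : ∀ y : ℝ, 0 < y → ∀ (g k : Mat m) (x z : VN m N), g.det ≠ 0 → k.det ≠ 0 →
      PPu D y g x k z ≤ ENNReal.ofReal C1 * Ku y g x k z)
    (H2 : ∀ y : ℝ, 0 < y →
      ∀ (b n : Mat m) (a : Fin m → ℝ) (k : Mat m), Sgl b n a k →
      ∀ (sel : AddSubgroup (Fin m → ℤ) → ZM m) (vs : AddSubgroup (Fin m → ℤ) → Fin m → ℝ),
      Sel b sel vs → ∀ x : VN m N, Pr x →
      ∫⁻ h in D, ∑ z : VN m N, (Ku y b x (mt h) z) ^ 2 ∂(hm m) ≤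
      ENNReal.ofReal C2 * ∑' L : AddSubgroup (Fin m → ℤ),
        (if y ^ 2 / 4 < (L.index : ℝ) ∧ (L.index : ℝ) ≤ y ^ 2 then
          (NL (sel L) : ENNReal) ^ 2 *
            ENNReal.ofReal (∏ i, ∏ j, (1 + C0 * vs L i / vs (kl x) j)) else 0))
    (H3 : ∀ (b n : Mat m) (a : Fin m → ℝ) (k : Mat m), Sgl b n a k →
      1 ≤ aN b → aN b < Real.exp 1 → ∀ Y : ℝ, 1 ≤ Y →
      (∀ i j : Fin m, (i : ℕ) + 1 = j → a j ≤ Y * a i) → ∀ y : ℝ, 1 ≤ y →
      ∀ (sel : AddSubgroup (Fin m → ℤ) → ZM m) (vs : AddSubgroup (Fin m → ℤ) → Fin m → ℝ),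
      Sel b sel vs →
      ∑' M : AddSubgroup (Fin m → ℤ), ∑' L : AddSubgroup (Fin m → ℤ),
      (if M.index = N ∧ y ^ 2 / 4 < (L.index : ℝ) ∧ (L.index : ℝ) ≤ y ^ 2 then
        (NL (sel L) : ENNReal) ^ 2 * ENNReal.ofReal (∏ i, ∏ j, (1 + C0 * vs L i / vs M j))
          else 0) ≤
      ENNReal.ofReal (C3 * (1 + Real.log (y * Y * N)) ^ K3 * (N : ℝ) ^ ((m : ℝ) - 1 + ε) *
        y ^ (2 * m) * (1 + y ^ 2 / N) ^ m * skw a))
    (y Y : ℝ) (hy : 1 ≤ y) (hY : 2 ≤ Y) (g : V m) (hg : g ∈ DY D Y) (γ : ZM m) (hγ : IsUnit γ)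
    (n : Mat m) (a : Fin m → ℝ) (k : Mat m) (hS : Sgl (cR γ * mt g) n a k) :
    Eu N D y (mt g) ≤ ENNReal.ofReal (C1 ^ 2 * (C2 * ((N : ℝ) *
      (C3 * (1 + Real.log (y * Y * N)) ^ K3 * (N : ℝ) ^ ((m : ℝ) - 1 + ε) *
        y ^ (2 * m) * (1 + y ^ 2 / N) ^ m)))) * ENNReal.ofReal (skw a) := by
  obtain ⟨⟨_, hA2⟩, _, _, _, hunit, _, _⟩ := hA m N h1 h2
  have hsh := hD.shell g hg.1
  have hgd : (mt g).det ≠ 0 := enu_det m h1 _ hsh.1
  have hγd : |(cR γ).det| = 1 := by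
    rw [(hA2 γ).2, (hunit γ).1 hγ]
    norm_num
  set b : Mat m := cR γ * mt g with hb
  have hbd : |b.det| = |(mt g).det| := by
    rw [hb, Matrix.det_mul, abs_mul, hγd, one_mul]
  have hbd0 : b.det ≠ 0 := by
    rw [← abs_ne_zero, hbd, abs_ne_zero]
    exact hgd
  have hbN : aN b = aN (mt g) := by
    unfold aN
    rw [hbd]
  have hN1 : (1 : ℝ) ≤ N := by
    have : 1 ≤ N := by omega
    exact_mod_cast this
  have hyY : 1 ≤ y * Y := by nlinarith
  have hlog : 0 ≤ Real.log (y * Y * N) := Real.log_nonneg (by nlinarith)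
  have hy0 : 0 < y := by linarith
  set E : ℝ := C3 * (1 + Real.log (y * Y * N)) ^ K3 * (N : ℝ) ^ ((m : ℝ) - 1 + ε) *
        y ^ (2 * m) * (1 + y ^ 2 / N) ^ m with hE
  have hE0 : 0 ≤ E := by positivity
  have hsk : 0 < skw a := enu_skw a hS.pos
  obtain ⟨sel, vs, hsel⟩ := hSEX m b hbd0
  set G : AddSubgroup (Fin m → ℤ) → ENNReal := fun M => ∑' L : AddSubgroup (Fin m → ℤ),
        (if y ^ 2 / 4 < (L.index : ℝ) ∧ (L.index : ℝ) ≤ y ^ 2 then
          (NL (sel L) : ENNReal) ^ 2 *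
            ENNReal.ofReal (∏ i, ∏ j, (1 + C0 * vs L i / vs M j)) else 0) with hG
  rw [← hEIE m N D y γ (mt g) h1 h2 hγ]
  have hx : ∀ x : VN m N, ∫⁻ k in D, ∑ z : VN m N, (PPu D y b x (mt k) z) ^ 2 ∂(hm m) ≤
      ENNReal.ofReal (C1 ^ 2 * C2) * (if Pr x then G (kl x) else 0) := by
    intro x
    by_cases hxu : Pr x
    · rw [if_pos hxu]
      calc ∫⁻ k in D, ∑ z : VN m N, (PPu D y b x (mt k) z) ^ 2 ∂(hm m)
          ≤ ∫⁻ k in D, ENNReal.ofReal (C1 ^ 2) *
              ∑ z : VN m N, (Ku y b x (mt k) z) ^ 2 ∂(hm m) := by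
            refine setLIntegral_mono' hD.meas fun k' hk' => ?_
            rw [Finset.mul_sum]
            refine Finset.sum_le_sum fun z _ => ?_
            have hk'd : (mt k').det ≠ 0 := enu_det m h1 _ (hD.shell k' hk').1
            have h3 := H1 y hy0 b (mt k') x z hbd0 hk'd
            calc (PPu D y b x (mt k') z) ^ 2
                ≤ (ENNReal.ofReal C1 * Ku y b x (mt k') z) ^ 2 := by gcongr
              _ = ENNReal.ofReal (C1 ^ 2) * (Ku y b x (mt k') z) ^ 2 := by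
                  rw [mul_pow, ENNReal.ofReal_pow hC1.le]
        _ = ENNReal.ofReal (C1 ^ 2) *
              ∫⁻ k in D, ∑ z : VN m N, (Ku y b x (mt k) z) ^ 2 ∂(hm m) :=
            lintegral_const_mul' _ _ ENNReal.ofReal_ne_top
        _ ≤ ENNReal.ofReal (C1 ^ 2) * (ENNReal.ofReal C2 * G (kl x)) :=
            mul_le_mul' le_rfl (H2 y hy0 b n a k hS sel vs hsel x hxu)
        _ = ENNReal.ofReal (C1 ^ 2 * C2) * G (kl x) := by
            rw [ENNReal.ofReal_mul (by positivity : 0 ≤ C1 ^ 2), mul_assoc]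
    · have h4 : ∀ k' : V m, ∑ z : VN m N, (PPu D y b x (mt k') z) ^ 2 = 0 := fun k' =>
        Finset.sum_eq_zero fun z _ => by
          rw [enu_PP0 hU m N h1 h2 D y b (mt k') x z hxu]
          simp
      simp only [h4, lintegral_zero]
      exact bot_le
  have hM : ∑' M : AddSubgroup (Fin m → ℤ), (if M.index = N then G M else 0) ≤
      ENNReal.ofReal (E * skw a) := by
    refine le_trans (le_of_eq (tsum_congr fun M => ?_)) (H3 b n a k hS (by rw [hbN]; exact hsh.1)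
      (by rw [hbN]; exact hsh.2) Y (by linarith) (hg.2 γ hγ n a k hS) y hy sel vs hsel)
    by_cases hMi : M.index = N
    · rw [if_pos hMi]
      refine tsum_congr fun L => ?_
      by_cases hL : y ^ 2 / 4 < (L.index : ℝ) ∧ (L.index : ℝ) ≤ y ^ 2
      · rw [if_pos hL, if_pos ⟨hMi, hL⟩]
      · rw [if_neg hL, if_neg (fun h => hL h.2)]
    · rw [if_neg hMi, eq_comm, ENNReal.tsum_eq_zero]
      intro L
      rw [if_neg (fun h => hMi h.1)]
  calc Eu N D y b
      ≤ ∑ x : VN m N, ENNReal.ofReal (C1 ^ 2 * C2) * (if Pr x then G (kl x) else 0) :=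
        Finset.sum_le_sum fun x _ => hx x
    _ = ENNReal.ofReal (C1 ^ 2 * C2) * ∑ x : VN m N, (if Pr x then G (kl x) else 0) := by
        rw [Finset.mul_sum]
    _ ≤ ENNReal.ofReal (C1 ^ 2 * C2) * ((N : ENNReal) * ENNReal.ofReal (E * skw a)) :=
        mul_le_mul' le_rfl ((enu_fib hKLI m N h1 h2 G).trans (mul_le_mul' le_rfl hM))
    _ = _ := by
        rw [← ENNReal.ofReal_natCast N, ← ENNReal.ofReal_mul (by positivity),
          ← ENNReal.ofReal_mul (by positivity), ← ENNReal.ofReal_mul (by positivity)]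
        congr 1
        ring

theorem pf_ENU (hH1 : T_H1U) (hH2 : T_H2U) (hEIE : T_EIE) (hEGM : T_EGM) (hKLI : T_KLI)
    (hVLM : T_VLM) (hSEX : T_SEX) (hDYM : T_DYM) (hU : T_ALU) (hA : T_ALZ) : T_ENU := by
  intro m h1 ε hε
  obtain ⟨C1, hC1, H1⟩ := hH1 m h1
  obtain ⟨C2, C0, hC2, hC0, H2⟩ := hH2 m h1
  obtain ⟨C3, K3, hC3, H3⟩ := hEGM m h1 C0 ε hC0 hε
  obtain ⟨C4, K4, hC4, H4⟩ := hVLM m h1
  refine ⟨C1 ^ 2 * C2 * C3 * C4, K3 + K4, by positivity, ?_⟩
  intro N _ D h2 hD y Y hy hY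
  have hN1 : (1 : ℝ) ≤ N := by
    have : 1 ≤ N := by omega
    exact_mod_cast this
  have hN0 : (0 : ℝ) < N := by linarith
  have hlogY : 0 ≤ Real.log Y := Real.log_nonneg (by linarith)
  have hyY : Y ≤ y * Y * N := by
    have h3 : Y ≤ y * Y := by nlinarith
    have h4 : y * Y ≤ y * Y * N := by nlinarith
    linarith
  have hlog : Real.log Y ≤ Real.log (y * Y * N) := Real.log_le_log (by linarith) hyY
  have hy0 : 0 < y := by linarith
  set A : ℝ := C1 ^ 2 * (C2 * ((N : ℝ) *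
      (C3 * (1 + Real.log (y * Y * N)) ^ K3 * (N : ℝ) ^ ((m : ℝ) - 1 + ε) *
        y ^ (2 * m) * (1 + y ^ 2 / N) ^ m))) with hAdef
  have hA0 : 0 < A := by
    have : 0 < 1 + Real.log (y * Y * N) := by linarith
    positivity
  have hpt : ∀ g ∈ DY D Y, Eu N D y (mt g) ≤ ENNReal.ofReal A * Tht (mt g) := by
    intro g hg
    have hA1 : ENNReal.ofReal A ≠ 0 := by
      rw [Ne, ENNReal.ofReal_eq_zero, not_le]
      exact hA0
    have h5 : Eu N D y (mt g) / ENNReal.ofReal A ≤ Tht (mt g) := by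
      unfold Tht
      refine le_iInf fun γ => le_iInf fun hγ => le_iInf fun n => le_iInf fun a =>
        le_iInf fun k => le_iInf fun hS => ?_
      refine ENNReal.div_le_of_le_mul' ?_
      exact enu_pt hA hU hEIE hKLI hSEX m h1 C1 C2 C0 C3 ε K3 hC1 hC2 hC3 N D h2 hD
        (fun y hy g k x z hg hk => H1 N D h2 hD y hy g k x z hg hk)
        (fun y hy b n a k hS sel vs hs x hx => H2 N D h2 hD y hy b n a k hS sel vs hs x hx)
        (fun b n a k hS hb1 hb2 Y hY hgap y hy sel vs hs =>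
          H3 N (by omega) b n a k hS hb1 hb2 Y hY hgap y hy sel vs hs)
        y Y hy hY g hg γ hγ n a k hS
    rw [ENNReal.div_le_iff' hA1 ENNReal.ofReal_ne_top] at h5
    exact h5
  calc ∫⁻ g in DY D Y, Eu N D y (mt g) ∂(hm m)
      ≤ ∫⁻ g in DY D Y, ENNReal.ofReal A * Tht (mt g) ∂(hm m) :=
        setLIntegral_mono' (hDYM m D hD Y) hpt
    _ = ENNReal.ofReal A * ∫⁻ g in DY D Y, Tht (mt g) ∂(hm m) :=
        lintegral_const_mul' _ _ ENNReal.ofReal_ne_top
    _ ≤ ENNReal.ofReal A * ENNReal.ofReal (C4 * (1 + Real.log Y) ^ K4) :=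
        mul_le_mul' le_rfl ((H4 D hD).2 Y hY)
    _ = ENNReal.ofReal (A * (C4 * (1 + Real.log Y) ^ K4)) := by
        rw [ENNReal.ofReal_mul hA0.le]
    _ ≤ _ := by
        refine ENNReal.ofReal_le_ofReal ?_
        have h7 : (1 + Real.log Y) ^ K4 ≤ (1 + Real.log (y * Y * N)) ^ K4 := by gcongr
        have h8 : (N : ℝ) * (N : ℝ) ^ ((m : ℝ) - 1 + ε) = (N : ℝ) ^ ((m : ℝ) + ε) := by
          nth_rewrite 1 [← Real.rpow_one (N : ℝ)]
          rw [← Real.rpow_add hN0]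
          congr 1
          ring
        calc A * (C4 * (1 + Real.log Y) ^ K4) ≤ A * (C4 * (1 + Real.log (y * Y * N)) ^ K4) := by
              gcongr
          _ = C1 ^ 2 * C2 * C3 * C4 * ((N : ℝ) * (N : ℝ) ^ ((m : ℝ) - 1 + ε)) *
                (1 + Real.log (y * Y * N)) ^ (K3 + K4) * y ^ (2 * m) * (1 + y ^ 2 / N) ^ m := by
              rw [hAdef, pow_add]
              ring
          _ = _ := by rw [h8]

end Pool.Agent.H49.GU
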